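import Pool.Agent.Lib.MP_cce914_co.Main

set_option autoImplicit false

namespace Pool.Agent.Results.MP_cce914_co.Bicircular

open Pool.Agent.Lib.MP_cce914_co

theorem result : ∃ c C : ℕ,
    (∃ T₀ : Turing.TM2ComputableAux Bool Bool, ∀ (m : ℕ) (G : Fin m → ℕ × ℕ),
      (∀ e, (G e).1 < 2 * m ∧ (G e).2 < 2 * m) → ∀ X : Finset (Fin m),
        Decides T₀ (codeGraph G ++ codeSet X) (Indep G X) (C * (m + 1) ^ c)) ∧
    ∃ T : Turing.TM2ComputableAux Bool Bool, ∀ l : ℕ, ∃ π : ℕ, ∀ (m : ℕ) (G : Fin m → ℕ × ℕ),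
      (∀ e, (G e).1 < 2 * m ∧ (G e).2 < 2 * m) → ∀ U : Finset (Fin m),
        rank G U + rank G Uᶜ ≤ rank G Finset.univ + l →
        ∃ f : Finset (Fin m) → Fin π,
          (∀ X ⊆ U, ∀ X' ⊆ U, f X = f X' → ∀ Z ⊆ Uᶜ, (Indep G (X ∪ Z) ↔ Indep G (X' ∪ Z))) ∧
          ∀ X ⊆ U, ∀ X' ⊆ U, Decides T (codeGraph G ++ codeSet U ++ codeSet X ++ codeSet X')
            (f X = f X') (C * (m + 1) ^ c) :=
  main

end Pool.Agent.Results.MP_cce914_co.Bicircular
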