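import Pool.Agent.Lib.MP_cce914_co.GMain

set_option autoImplicit false

namespace Pool.Agent.Results.MP_cce914_co.GainGraphic

open Pool.Agent.Lib.MP_cce914_co

theorem result (H : Type) [Group H] (k : ℕ) (φ : H ≃ Fin k) : ∃ c C : ℕ,
    (∃ T₀ : Turing.TM2ComputableAux Bool Bool, ∀ (m : ℕ) (G : Fin m → ℕ × ℕ) (γ : Fin m → H),
      (∀ e, (G e).1 < 2 * m ∧ (G e).2 < 2 * m) → ∀ X : Finset (Fin m),
        Decides T₀ (codeGraph G ++ codeGain φ γ ++ codeSet X) (FrameIndep G γ X)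
          (C * (m + 1) ^ c)) ∧
    ∃ T : Turing.TM2ComputableAux Bool Bool, ∀ l : ℕ, ∃ π : ℕ,
      ∀ (m : ℕ) (G : Fin m → ℕ × ℕ) (γ : Fin m → H),
      (∀ e, (G e).1 < 2 * m ∧ (G e).2 < 2 * m) → ∀ U : Finset (Fin m),
        frameRank G γ U + frameRank G γ Uᶜ ≤ frameRank G γ Finset.univ + l →
        ∃ f : Finset (Fin m) → Fin π,
          (∀ X ⊆ U, ∀ X' ⊆ U, f X = f X' →
            ∀ Z ⊆ Uᶜ, (FrameIndep G γ (X ∪ Z) ↔ FrameIndep G γ (X' ∪ Z))) ∧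
          ∀ X ⊆ U, ∀ X' ⊆ U,
            Decides T (codeGraph G ++ codeGain φ γ ++ codeSet U ++ codeSet X ++ codeSet X')
              (f X = f X') (C * (m + 1) ^ c) :=
  mainG H k φ

end Pool.Agent.Results.MP_cce914_co.GainGraphic
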